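import Pool.Agent.Q211.AV.Main

/-!
# Strongly avoiding pairs without totally avoiding pairs

`CDense` (`𝔠`-dense), `StronglyAvoids`, `TotallyAvoids`, `OCA` (Todorcevic's open colouring axiom)
and `CovMeagre` (`cov(𝓜) = 𝔠`) are defined in `Pool.Agent.Q211.AV.Def`; `CS` is `ℕ → Bool`.
-/

namespace Pool.Agent.Results.MP_24213f_lc.StronglyNotTotally

open Cardinal Set Pool.Agent.Q211.AV

/-- The situation asked for in Q1. -/
def Situation : Prop :=
  (∃ X Y : Set CS, CDense X ∧ CDense Y ∧ StronglyAvoids X Y ∧ StronglyAvoids Y X) ∧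
    ¬ ∃ X Y : Set CS, CDense X ∧ CDense Y ∧ TotallyAvoids X Y ∧ TotallyAvoids Y X

/-- * If `cov(𝓜) = 𝔠`, then there are `𝔠`-dense sets which strongly avoid one another.
* Under OCA no two `𝔠`-dense sets totally avoid one another.
* Hence `cov(𝓜) = 𝔠` and OCA (in particular MA and OCA) give the situation of Q1. -/
theorem result :
    (CovMeagre → ∃ X Y : Set CS, CDense X ∧ CDense Y ∧ StronglyAvoids X Y ∧
      StronglyAvoids Y X) ∧
    (OCA → ¬ ∃ X Y : Set CS, CDense X ∧ CDense Y ∧ TotallyAvoids X Y ∧ TotallyAvoids Y X) ∧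
    (CovMeagre → OCA → Situation) := by
  have h1 : OCA → ¬ ∃ X Y : Set CS, CDense X ∧ CDense Y ∧ TotallyAvoids X Y ∧
      TotallyAvoids Y X := by
    rintro hO ⟨X, Y, hX, hY, h⟩
    exact not_totally hO X Y hX hY h
  exact ⟨exists_pair, h1, fun hc hO => ⟨exists_pair hc, h1 hO⟩⟩

end Pool.Agent.Results.MP_24213f_lc.StronglyNotTotally
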